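import Mathlib

set_option autoImplicit false

namespace Pool.Agent.Results.MP_6d4b14_an.ValuativeSolutions

open unitInterval

/-- Equation `(E)` for a function `g` on `[0,1]`, i.e. the case `n = m = 2` of the family of sum form
equations: for all `x, y` in `[0,1]`,
`g(xy) + g(x(1-y)) + g((1-x)y) + g((1-x)(1-y)) = (g(x) + g(1-x)) (g(y) + g(1-y))`.
Here `I` is the closed unit interval and `σ x = 1 - x`. -/
def SolvesE (g : I → ℝ) : Prop :=
  ∀ x y : I, g (x * y) + g (x * σ y) + g (σ x * y) + g (σ x * σ y)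
    = (g x + g (σ x)) * (g y + g (σ y))

/-- The real vector space of normalized solutions of the linear equation belonging to `(E)`. -/
def Homog (H : I → ℝ) : Prop :=
  H 0 = 0 ∧ (∀ x, H (σ x) = - H x) ∧
    ∀ x y : I, H (x * y) + H (x * σ y) + H (σ x * y) + H (σ x * σ y) = 0

/-- `M(xy) = M(x) M(y)` for all `x, y` in `[0,1]`. -/
def IsMult (M : I → ℝ) : Prop := ∀ x y : I, M (x * y) = M x * M y

/-- The tame functions: multiplicative plus additive plus continuous. All solutions of `(E)` named so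
far (multiplicative functions, the identity, additive perturbations, constants, polynomials) are of
this form. -/
def Tame (g : I → ℝ) : Prop :=
  ∃ (M : I → ℝ) (A : ℝ →+ ℝ) (C : I → ℝ), IsMult M ∧ Continuous C ∧
    ∀ x : I, g x = M x + A (x : ℝ) + C x

/-- Functions of valuative type, for a (Krull) valuation `v` of the field of real numbers:
`f` is odd, vanishes on the valuation ring, and `f (z + w) = f z` whenever `v z > 1` and
`(v w)^2 ≤ v z`. -/
structure Valuative {Γ : Type*} [LinearOrderedCommGroupWithZero Γ] (v : Valuation ℝ Γ)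
    (f : ℝ → ℝ) : Prop where
  zero_on : ∀ z, v z ≤ 1 → f z = 0
  odd : ∀ z, f (-z) = - f z
  inv : ∀ z w, 1 < v z → (v w) ^ 2 ≤ v z → f (z + w) = f z

section val
variable {Γ : Type*} [LinearOrderedCommGroupWithZero Γ] {v : Valuation ℝ Γ} {f : ℝ → ℝ}

lemma Valuative.pair (hf : Valuative v f) {x y : ℝ} (h : v x ≤ max 1 (v y)) :
    f (x * y) + f (x * (1 - y)) = 0 := by
  have e : x * (1 - y) = -(x * y + (-x)) := by ring
  rw [e, hf.odd]
  have key : f (x * y + (-x)) = f (x * y) := by
    rcases le_or_gt (v (x * y)) 1 with h1 | h1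
    · have hx : v x ≤ 1 := by
        by_contra hx
        push Not at hx
        have hy : v x ≤ v y := by
          rcases le_max_iff.1 h with h2 | h2
          · exact absurd h2 (not_le.2 hx)
          · exact h2
        have : 1 < v x * v y := by
          calc (1 : Γ) < v x := hx
            _ = v x * 1 := (mul_one _).symm
            _ ≤ v x * v y := mul_le_mul' le_rfl (hx.le.trans hy)
        rw [map_mul] at h1
        exact absurd h1 (not_le.2 this)
      have h2 : v (x * y + (-x)) ≤ 1 := by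
        apply v.map_add_le h1
        rwa [Valuation.map_neg]
      rw [hf.zero_on _ h1, hf.zero_on _ h2]
    · apply hf.inv _ _ h1
      rw [Valuation.map_neg, pow_two, map_mul]
      rcases le_max_iff.1 h with h2 | h2
      · calc v x * v x ≤ 1 * 1 := mul_le_mul' h2 h2
          _ = 1 := one_mul 1
          _ ≤ v x * v y := by rw [← map_mul]; exact h1.le
      · exact mul_le_mul' le_rfl h2
  rw [key]; ring

lemma Valuative.one_sub (hf : Valuative v f) (x : ℝ) : f (1 - x) = - f x := by
  have h := hf.pair (x := 1) (y := x) (by rw [map_one]; exact le_max_left _ _)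
  rw [one_mul, one_mul] at h
  linarith

lemma val_one_sub_le (v : Valuation ℝ Γ) (x : ℝ) : v (1 - x) ≤ max 1 (v x) := by
  have := v.map_sub 1 x
  rwa [map_one] at this

lemma Valuative.four (hf : Valuative v f) (x y : ℝ) :
    f (x * y) + f (x * (1 - y)) + f ((1 - x) * y) + f ((1 - x) * (1 - y)) = 0 := by
  rcases le_total (v x) (max 1 (v y)) with h | h
  · have h1 := hf.pair h
    have h2 : v (1 - x) ≤ max 1 (v y) := (val_one_sub_le v x).trans (max_le (le_max_left _ _) h)
    have h3 := hf.pair h2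
    linarith
  · have hyx : v y ≤ max 1 (v x) := ((le_max_right _ _).trans h).trans (le_max_right _ _)
    have h1 := hf.pair hyx
    have h2 : v (1 - y) ≤ max 1 (v x) := (val_one_sub_le v y).trans (max_le (le_max_left _ _) hyx)
    have h3 := hf.pair h2
    rw [mul_comm y x, mul_comm y (1 - x)] at h1
    rw [mul_comm (1 - y) x, mul_comm (1 - y) (1 - x)] at h3
    linarith

lemma Valuative.homog (hf : Valuative v f) : Homog (fun x : I => f (x : ℝ)) := by
  refine ⟨?_, ?_, ?_⟩
  · show f ((0 : I) : ℝ) = 0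
    exact hf.zero_on _ (by simp)
  · intro x
    show f ((σ x : I) : ℝ) = - f (x : ℝ)
    rw [unitInterval.coe_symm_eq]
    exact hf.one_sub _
  · intro x y
    have := hf.four (x : ℝ) (y : ℝ)
    simpa [unitInterval.coe_symm_eq] using this

end val

lemma additive_homog (A : ℝ →+ ℝ) (hA : A 1 = 0) : Homog (fun x : I => A (x : ℝ)) := by
  refine ⟨?_, ?_, ?_⟩
  · simp
  · intro x
    simp [unitInterval.coe_symm_eq, map_sub, hA]
  · intro x y
    have : A ((x : ℝ) * y) + A ((x : ℝ) * (1 - y)) + A ((1 - (x : ℝ)) * y)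
        + A ((1 - (x : ℝ)) * (1 - y)) = A 1 := by
      rw [← map_add, ← map_add, ← map_add]
      congr 1
      ring
    rw [hA] at this
    simpa [unitInterval.coe_symm_eq] using this

lemma solvesE_translate (g g' : I → ℝ) (hg : SolvesE g) :
    (SolvesE g' ∧ ∀ x, g' x + g' (σ x) = g x + g (σ x)) ↔ Homog (fun x => g' x - g x) := by
  constructor
  · rintro ⟨h', hs⟩
    have hodd : ∀ x, g' (σ x) - g (σ x) = - (g' x - g x) := by
      intro x; have := hs x; linarith
    have hsum : ∀ x y : I, (g' (x * y) - g (x * y)) + (g' (x * σ y) - g (x * σ y))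
        + (g' (σ x * y) - g (σ x * y)) + (g' (σ x * σ y) - g (σ x * σ y)) = 0 := by
      intro x y
      have h1 := h' x y
      have h2 := hg x y
      rw [hs x, hs y] at h1
      linarith
    refine ⟨?_, hodd, hsum⟩
    have h1 := hsum 0 0
    have h2 := hodd 0
    simp only [unitInterval.symm_zero, mul_zero, mul_one] at h1 h2
    show g' 0 - g 0 = 0
    linarith
  · rintro ⟨h0, hodd, hsum⟩
    have hs : ∀ x, g' x + g' (σ x) = g x + g (σ x) := by
      intro x; have := hodd x; simp only at this; linarith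
    refine ⟨?_, hs⟩
    intro x y
    have h1 := hsum x y
    have h2 := hg x y
    simp only at h1
    rw [hs x, hs y, ← h2]
    linarith

lemma degenerate (g : I → ℝ) :
    (SolvesE g ∧ ¬ (g 0 = 0 ∧ g 1 = 1)) ↔
      ∃ a b : ℝ, (a + 2 * b) ^ 2 = a + 4 * b ∧ ¬ (b = 0 ∧ a + b = 1) ∧
        ∃ H : I → ℝ, Homog H ∧ ∀ x : I, g x = a * (x : ℝ) + b + H x := by
  constructor
  · rintro ⟨hg, hne⟩
    have h0 : ∀ x, 2 * g 0 + g x + g (σ x) = (g x + g (σ x)) * (g 0 + g 1) := by
      intro x
      have := hg x 0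
      simp only [unitInterval.symm_zero, mul_zero, mul_one] at this
      linarith
    have h00 := h0 0
    simp only [unitInterval.symm_zero] at h00
    have hs : g 0 + g 1 ≠ 1 := by
      intro hs
      rw [hs] at h00
      apply hne
      constructor <;> linarith
    have hφ : ∀ x, g x + g (σ x) = g 0 + g 1 := by
      intro x
      have h1 := h0 x
      have h2 : (g x + g (σ x) - (g 0 + g 1)) * (g 0 + g 1 - 1) = 0 := by linear_combination h00 - h1
      rcases mul_eq_zero.1 h2 with h3 | h3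
      · linarith
      · exact absurd (by linarith) hs
    refine ⟨g 1 - g 0, g 0, by linear_combination -h00, ?_,
      fun x => g x - (g 1 - g 0) * (x : ℝ) - g 0, ⟨?_, ?_, ?_⟩, ?_⟩
    · rintro ⟨hb, hab⟩
      exact hne ⟨hb, by linarith⟩
    · simp
    · intro x
      have := hφ x
      simp only [unitInterval.coe_symm_eq]
      linear_combination this
    · intro x y
      have h1 := hg x y
      rw [hφ x, hφ y] at h1
      simp only [unitInterval.coe_symm_eq, Set.Icc.coe_mul]
      linear_combination h1 - h00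
    · intro x; ring
  · rintro ⟨a, b, hab, hne, H, ⟨H0, Hodd, Hsum⟩, hgH⟩
    refine ⟨?_, ?_⟩
    · intro x y
      have h1 := Hsum x y
      have h2 := Hodd x
      have h3 := Hodd y
      simp only [hgH, unitInterval.coe_symm_eq, Set.Icc.coe_mul, h2, h3]
      linear_combination h1 - hab
    · rintro ⟨h0, h1⟩
      have H1 : H 1 = 0 := by
        have := Hodd 0
        rw [unitInterval.symm_zero] at this
        rw [this, H0, neg_zero]
      rw [hgH] at h0 h1
      simp only [Set.Icc.coe_zero, Set.Icc.coe_one, mul_zero, mul_one, H0, H1] at h0 h1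
      exact hne ⟨by linarith, by linarith⟩


/-- a valuation of `ℝ` above the prime `p` -/
lemma exists_val (p : ℕ) (hp : p.Prime) :
    ∃ (O : ValuationSubring ℝ), ∀ n : ℤ, O.valuation (n : ℝ) ≤ 1 ∧
      (O.valuation (n : ℝ) < 1 ↔ (p : ℤ) ∣ n) := by
  let A : Subring ℝ := (Int.castRingHom ℝ).range
  let pA : A := ⟨(p : ℝ), ⟨(p : ℤ), by simp⟩⟩
  have hne : Ideal.span {pA} ≠ ⊤ := by
    intro h
    rw [Ideal.span_singleton_eq_top] at h
    obtain ⟨⟨b, m, hm⟩, hb⟩ := h.exists_right_inv
    have h1 : ((p : ℝ)) * b = 1 := by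
      have := congrArg Subtype.val hb
      simpa [pA] using this
    rw [← hm] at h1
    have h2 : ((p : ℤ) * m : ℤ) = 1 := by
      have : (((p : ℤ) * m : ℤ) : ℝ) = ((1 : ℤ) : ℝ) := by push_cast; simpa using h1
      exact_mod_cast this
    have h3 : (p : ℤ) ∣ 1 := ⟨m, h2.symm⟩
    have h4 : p ∣ 1 := by exact_mod_cast h3
    exact hp.one_lt.ne' (Nat.dvd_one.1 h4)
  obtain ⟨O, hO, hI⟩ := Ideal.image_subset_nonunits_valuationSubring _ hne
  have hint : ∀ n : ℤ, O.valuation (n : ℝ) ≤ 1 := by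
    intro n
    rw [ValuationSubring.valuation_le_one_iff]
    exact hO ⟨n, by simp⟩
  have hpv : O.valuation (p : ℝ) < 1 := by
    rw [← ValuationSubring.mem_nonunits_iff]
    exact hI ⟨pA, Ideal.subset_span rfl, rfl⟩
  refine ⟨O, fun n => ⟨hint n, ?_, ?_⟩⟩
  · intro hn
    by_contra hnd
    have hcop : IsCoprime (p : ℤ) n := by
      rw [Int.isCoprime_iff_gcd_eq_one]
      have := (Nat.Prime.coprime_iff_not_dvd hp).2 (fun h => hnd (Int.natCast_dvd.2 h))
      simpa [Int.gcd] using this
    obtain ⟨u, w, huw⟩ := hcop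
    have h1 : O.valuation ((u * p + w * n : ℤ) : ℝ) = 1 := by rw [huw]; simp
    have h2 : O.valuation ((u * p + w * n : ℤ) : ℝ) < 1 := by
      push_cast
      apply Valuation.map_add_lt
      · rw [map_mul]
        exact mul_lt_one_of_nonneg_of_lt_one_right (hint u) zero_le hpv
      · rw [map_mul]
        exact mul_lt_one_of_nonneg_of_lt_one_right (hint w) zero_le hn
    exact absurd h1 h2.ne
  · rintro ⟨m, rfl⟩
    push_cast
    rw [map_mul]
    calc O.valuation (p : ℝ) * O.valuation (m : ℝ) ≤ O.valuation (p : ℝ) * 1 :=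
          mul_le_mul' le_rfl (hint m)
      _ < 1 := by rwa [mul_one]

section constr
variable {Γ : Type*} [LinearOrderedCommGroupWithZero Γ] (v : Valuation ℝ Γ) (p : ℕ)
  (s : ZMod p → ℝ)

open Classical in
/-- the function `z ↦ s (p z mod 𝔪)` for `z` outside the valuation ring -/
noncomputable def F (z : ℝ) : ℝ :=
  if h : 1 < v z ∧ ∃ n : ℤ, v ((p : ℝ) * z - n) < 1 then s ((h.2.choose : ℤ) : ZMod p) else 0

variable (hv : ∀ n : ℤ, v (n : ℝ) ≤ 1 ∧ (v (n : ℝ) < 1 ↔ (p : ℤ) ∣ n))

include hv in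
lemma F_eq {z : ℝ} (hz : 1 < v z) {n : ℤ} (hn : v ((p : ℝ) * z - n) < 1) :
    F v p s z = s (n : ZMod p) := by
  have h : 1 < v z ∧ ∃ n : ℤ, v ((p : ℝ) * z - n) < 1 := ⟨hz, n, hn⟩
  unfold F
  rw [dif_pos h]
  congr 1
  have hm := h.2.choose_spec
  set m := h.2.choose with hmdef
  have h1 : v (((m - n : ℤ)) : ℝ) < 1 := by
    have e : (((m - n : ℤ)) : ℝ) = ((p : ℝ) * z - n) - ((p : ℝ) * z - m) := by push_cast; ring
    rw [e]
    exact Valuation.map_sub_lt _ hn hm
  have h2 := ((hv (m - n)).2).1 h1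
  have h3 : ((m - n : ℤ) : ZMod p) = 0 := (ZMod.intCast_zmod_eq_zero_iff_dvd _ _).2 h2
  push_cast at h3
  exact sub_eq_zero.1 h3

include hv in
lemma F_valuative (hs : ∀ a, s (-a) = - s a) : Valuative v (F v p s) := by
  have hpv : v (p : ℝ) < 1 := by
    have := ((hv (p : ℤ)).2).2 (dvd_refl _)
    simpa using this
  refine ⟨?_, ?_, ?_⟩
  · intro z hz
    unfold F
    rw [dif_neg]
    rintro ⟨h, -⟩
    exact absurd h (not_lt.2 hz)
  · intro z
    by_cases h : 1 < v z ∧ ∃ n : ℤ, v ((p : ℝ) * z - n) < 1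
    · obtain ⟨hz, n, hn⟩ := h
      have hz' : 1 < v (-z) := by rwa [Valuation.map_neg]
      have hn' : v ((p : ℝ) * (-z) - ((-n : ℤ) : ℝ)) < 1 := by
        have e : (p : ℝ) * (-z) - ((-n : ℤ) : ℝ) = -((p : ℝ) * z - n) := by push_cast; ring
        rwa [e, Valuation.map_neg]
      rw [F_eq v p s hv hz hn, F_eq v p s hv hz' hn']
      push_cast
      exact hs _
    · have h' : ¬ (1 < v (-z) ∧ ∃ n : ℤ, v ((p : ℝ) * (-z) - n) < 1) := by
        rintro ⟨hz, n, hn⟩
        apply h
        refine ⟨by rwa [Valuation.map_neg] at hz, -n, ?_⟩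
        have e : (p : ℝ) * z - ((-n : ℤ) : ℝ) = -((p : ℝ) * (-z) - n) := by push_cast; ring
        rwa [e, Valuation.map_neg]
      unfold F
      rw [dif_neg h, dif_neg h', neg_zero]
  · intro z w hz hw
    have hwz : v w < v z := by
      by_contra hc
      push Not at hc
      have h1 : v z * v z ≤ v z := by
        calc v z * v z ≤ v w * v w := mul_le_mul' hc hc
          _ = (v w) ^ 2 := (pow_two _).symm
          _ ≤ v z := hw
      have h2 : v z < v z * v z := by
        have hz0 : 0 < v z := lt_of_le_of_lt zero_le hz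
        calc v z = 1 * v z := (one_mul _).symm
          _ < v z * v z := (mul_lt_mul_iff_left₀ hz0).2 hz
      exact absurd h1 (not_le.2 h2)
    have hadd : v (z + w) = v z := Valuation.map_add_eq_of_lt_left v hwz
    -- key: if `p * z` or `p * (z + w)` is integral then `p * w` is in the maximal ideal
    have key : v (p : ℝ) * v z ≤ 1 → v ((p : ℝ) * w) < 1 := by
      intro h1
      by_contra hc
      push Not at hc
      rw [map_mul] at hc
      have h2 : (1 : Γ) ≤ v (p : ℝ) := by
        calc (1 : Γ) = 1 * 1 := (one_mul 1).symm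
          _ ≤ (v (p : ℝ) * v w) * (v (p : ℝ) * v w) := mul_le_mul' hc hc
          _ = v (p : ℝ) * (v (p : ℝ) * (v w) ^ 2) := by
                rw [pow_two, mul_assoc, mul_left_comm (v w) (v (p : ℝ)) (v w)]
          _ ≤ v (p : ℝ) * (v (p : ℝ) * v z) := mul_le_mul' le_rfl (mul_le_mul' le_rfl hw)
          _ ≤ v (p : ℝ) * 1 := mul_le_mul' le_rfl h1
          _ = v (p : ℝ) := mul_one _
      exact absurd hpv (not_lt.2 h2)
    have hint : ∀ (t : ℝ) (n : ℤ), v ((p : ℝ) * t - n) < 1 → v (p : ℝ) * v t ≤ 1 := by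
      intro t n h
      rw [← map_mul]
      have e : (p : ℝ) * t = ((p : ℝ) * t - n) + n := by ring
      rw [e]
      exact Valuation.map_add_le _ h.le (hv n).1
    by_cases h : ∃ n : ℤ, v ((p : ℝ) * z - n) < 1
    · obtain ⟨n, hn⟩ := h
      have h1 := key (hint z n hn)
      have hn' : v ((p : ℝ) * (z + w) - n) < 1 := by
        have e : (p : ℝ) * (z + w) - n = ((p : ℝ) * z - n) + (p : ℝ) * w := by ring
        rw [e]
        exact Valuation.map_add_lt _ hn h1
      rw [F_eq v p s hv hz hn, F_eq v p s hv (by rwa [hadd]) hn']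
    · have h' : ¬ ∃ n : ℤ, v ((p : ℝ) * (z + w) - n) < 1 := by
        rintro ⟨n, hn⟩
        apply h
        have h0 := hint (z + w) n hn
        rw [hadd] at h0
        have h1 := key h0
        refine ⟨n, ?_⟩
        have e : (p : ℝ) * z - n = ((p : ℝ) * (z + w) - n) - (p : ℝ) * w := by ring
        rw [e]
        exact Valuation.map_sub_lt _ hn h1
      unfold F
      rw [dif_neg (fun h2 => h' h2.2), dif_neg (fun h2 => h h2.2)]

include hv in
lemma val_eq_one {n : ℤ} (hn : ¬ (p : ℤ) ∣ n) : v (n : ℝ) = 1 := by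
  have h1 := (hv n).1
  have h2 : ¬ v (n : ℝ) < 1 := fun h => hn (((hv n).2).1 h)
  exact le_antisymm h1 (not_lt.1 h2)

include hv in
lemma F_at (hp : p.Prime) (hs : ∀ a, s (-a) = - s a) (n d : ℕ) (hd : ¬ p ∣ d) :
    F v p s ((n : ℝ) / d / p) = s ((n : ZMod p) * (d : ZMod p)⁻¹) := by
  have : Fact p.Prime := ⟨hp⟩
  have hpv : v (p : ℝ) < 1 := by
    have := ((hv (p : ℤ)).2).2 (dvd_refl _)
    simpa using this
  have hp0 : (p : ℝ) ≠ 0 := by exact_mod_cast hp.ne_zero
  have hvp0 : 0 < v (p : ℝ) := by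
    rw [Valuation.pos_iff]; exact hp0
  have hd0 : (d : ℝ) ≠ 0 := by
    intro h
    have : d = 0 := by exact_mod_cast h
    exact hd (this ▸ dvd_zero p)
  have hdz : (d : ZMod p) ≠ 0 := by
    intro h
    exact hd ((ZMod.natCast_eq_zero_iff _ _).1 h)
  have hs0 : s 0 = 0 := by have := hs 0; rw [neg_zero] at this; linarith
  have hval := F_valuative v p s hv hs
  have hvd : v (d : ℝ) = 1 := by
    have := val_eq_one v p hv (n := (d : ℤ)) (by exact_mod_cast hd)
    simpa using this
  by_cases hn : p ∣ n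
  · obtain ⟨k, rfl⟩ := hn
    have h1 : (((p * k : ℕ) : ℝ) / d / p) = ((k : ℤ) : ℝ) / d := by
      push_cast; field_simp
    have h2 : v (((k : ℤ) : ℝ) / d) ≤ 1 := by
      rw [map_div₀, hvd, div_one]; exact (hv k).1
    rw [h1, hval.zero_on _ h2]
    have : (((p * k : ℕ)) : ZMod p) = 0 := by push_cast; simp
    rw [this, zero_mul, hs0]
  · have hvn : v (n : ℝ) = 1 := by
      have := val_eq_one v p hv (n := (n : ℤ)) (by exact_mod_cast hn)
      simpa using this
    have hz : 1 < v ((n : ℝ) / d / p) := by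
      rw [map_div₀, map_div₀, hvn, hvd, div_one, one_div]
      exact (one_lt_inv₀ hvp0).2 hpv
    obtain ⟨m, hm⟩ := ZMod.intCast_surjective ((n : ZMod p) * (d : ZMod p)⁻¹)
    have hdiv : (p : ℤ) ∣ ((n : ℤ) - m * d) := by
      rw [← ZMod.intCast_zmod_eq_zero_iff_dvd]
      push_cast
      rw [hm, mul_assoc, inv_mul_cancel₀ hdz, mul_one, sub_self]
    have hlt : v ((p : ℝ) * ((n : ℝ) / d / p) - (m : ℝ)) < 1 := by
      have e : (p : ℝ) * ((n : ℝ) / d / p) - (m : ℝ) = (((n : ℤ) - m * d : ℤ) : ℝ) / d := by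
        push_cast; field_simp
      rw [e, map_div₀, hvd, div_one]
      exact ((hv _).2).2 hdiv
    rw [F_eq v p s hv hz hlt, hm]

end constr

/-- values at points whose `p z` is not integral -/
lemma F_zero_of_not_int {Γ : Type*} [LinearOrderedCommGroupWithZero Γ] (v : Valuation ℝ Γ) (p : ℕ)
    (s : ZMod p → ℝ) (hv : ∀ n : ℤ, v (n : ℝ) ≤ 1) {z : ℝ} (hz : 1 < v ((p : ℝ) * z)) :
    F v p s z = 0 := by
  unfold F
  rw [dif_neg]
  rintro ⟨-, n, hn⟩
  have e : (p : ℝ) * z = ((p : ℝ) * z - n) + n := by ring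
  rw [e] at hz
  exact absurd (Valuation.map_add_le _ hn.le (hv n)) (not_le.2 hz)

/-- prescribed values at the rational points with denominator exactly divisible by `p` -/
lemma interpolation (p : ℕ) (hp : p.Prime) (s : ZMod p → ℝ) (hs : ∀ a, s (-a) = - s a) :
    ∃ (O : ValuationSubring ℝ) (f : ℝ → ℝ), Valuative O.valuation f ∧
      (∀ n d : ℕ, ¬ p ∣ d → f ((n : ℝ) / d / p) = s ((n : ZMod p) * (d : ZMod p)⁻¹)) ∧
      (∀ z, f z = 0 ∨ ∃ a, f z = s a) ∧
      (∀ n d : ℕ, ¬ p ∣ d → f ((n : ℝ) / d) = 0) ∧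
      (∀ n d : ℕ, ¬ p ∣ n → ¬ p ∣ d → f ((n : ℝ) / d / p ^ 2) = 0) := by
  obtain ⟨O, hO⟩ := exists_val p hp
  have hV := F_valuative _ p s hO hs
  refine ⟨O, F O.valuation p s, hV, fun n d hd => F_at _ p s hO hp hs n d hd, ?_, ?_, ?_⟩
  · intro z
    unfold F
    split_ifs with h
    · exact Or.inr ⟨_, rfl⟩
    · exact Or.inl rfl
  · intro n d hd
    apply hV.zero_on
    have hvd : O.valuation (d : ℝ) = 1 := by
      have := val_eq_one O.valuation p hO (n := (d : ℤ)) (by exact_mod_cast hd)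
      simpa using this
    rw [map_div₀, hvd, div_one]
    have := (hO n).1
    simpa using this
  · intro n d hn hd
    apply F_zero_of_not_int _ _ _ (fun n => (hO n).1)
    have hp0 : (p : ℝ) ≠ 0 := by exact_mod_cast hp.ne_zero
    have e : (p : ℝ) * ((n : ℝ) / d / p ^ 2) = (n : ℝ) / d / p := by field_simp
    have hvd : O.valuation (d : ℝ) = 1 := by
      have := val_eq_one O.valuation p hO (n := (d : ℤ)) (by exact_mod_cast hd)
      simpa using this
    have hvn : O.valuation (n : ℝ) = 1 := by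
      have := val_eq_one O.valuation p hO (n := (n : ℤ)) (by exact_mod_cast hn)
      simpa using this
    have hpv : O.valuation (p : ℝ) < 1 := by
      have := ((hO (p : ℤ)).2).2 (dvd_refl _)
      simpa using this
    have hvp0 : 0 < O.valuation (p : ℝ) := by
      rw [Valuation.pos_iff]; exact hp0
    rw [e, map_div₀, map_div₀, hvn, hvd, div_one, one_div]
    exact (one_lt_inv₀ hvp0).2 hpv

/-- the odd function on `ZMod 3` -/
noncomputable def s3 : ZMod 3 → ℝ := fun a => if a = 1 then 1 else if a = 2 then -1 else 0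

lemma s3_odd : ∀ a, s3 (-a) = - s3 a := by
  intro a
  fin_cases a
  · have h1 : (-(0 : ZMod 3)) = 0 := by decide
    show s3 (-(0 : ZMod 3)) = - s3 0
    rw [h1]; simp only [s3]
    rw [if_neg (by decide), if_neg (by decide)]; simp
  · show s3 (-(1 : ZMod 3)) = - s3 1
    have h1 : (-(1 : ZMod 3)) = 2 := by decide
    rw [h1]; simp only [s3]
    rw [if_neg (by decide)]; simp
  · show s3 (-(2 : ZMod 3)) = - s3 2
    have h1 : (-(2 : ZMod 3)) = 1 := by decide
    rw [h1]; simp only [s3]
    rw [if_neg (show ¬ (2 : ZMod 3) = 1 by decide)]; simp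

lemma additive_rat (A : ℝ →+ ℝ) (q : ℚ) : A ((q : ℝ)) = q * A 1 := by
  have h := map_rat_smul A q (1 : ℝ)
  rw [Rat.smul_def, mul_one] at h
  rw [h, Rat.smul_def]

/-- the point `q` of `[0,1]` -/
def pt (q : ℚ) (h0 : 0 ≤ q) (h1 : q ≤ 1) : I := ⟨(q : ℝ), by exact_mod_cast h0, by exact_mod_cast h1⟩

lemma mult_nonneg {M : I → ℝ} (hM : IsMult M) (x : I) : 0 ≤ M x := by
  have hx0 : 0 ≤ (x : ℝ) := x.2.1
  have hx1 : (x : ℝ) ≤ 1 := x.2.2
  let y : I := ⟨Real.sqrt x, Real.sqrt_nonneg _, by
    exact Real.sqrt_le_iff.2 ⟨zero_le_one, by simpa using hx1⟩⟩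
  have hy : y * y = x := by
    apply Subtype.ext
    show Real.sqrt x * Real.sqrt x = x
    exact Real.mul_self_sqrt hx0
  rw [← hy, hM]
  exact mul_self_nonneg _

/-- the difference of two tame functions is never `f`, stated on sequences -/
lemma not_tame (f : ℝ → ℝ) (hf : ∀ (n d : ℕ), ¬ 3 ∣ n → ¬ 3 ∣ d → f ((n : ℝ) / d) = 0 ∧
      f ((n : ℝ) / d / 9) = 0 ∧ ((n : ZMod 3) = d → f ((n : ℝ) / d / 3) = 1) ∧
      ((n : ZMod 3) = -d → f ((n : ℝ) / d / 3) = -1))
    (g : I → ℝ) (hg : Tame g) : ¬ Tame (fun x => g x + f (x : ℝ)) := by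
  rintro ⟨M', A', C', hM', hC', h'⟩
  obtain ⟨M, A, C, hM, hC, h⟩ := hg
  -- the main relation on rational points
  let B : ℝ := A 1 - A' 1
  let Q : I → ℝ := fun x => C' x - C x - B * x
  have hQ : Continuous Q := (hC'.sub hC).sub (continuous_const.mul continuous_subtype_val)
  let x3 : I := ⟨1 / 3, by norm_num, by norm_num⟩
  let a : ℝ := M x3
  let a' : ℝ := M' x3
  have ha : 0 ≤ a := mult_nonneg hM x3
  have ha' : 0 ≤ a' := mult_nonneg hM' x3
  have main : ∀ x : I, (∃ q : ℚ, (x : ℝ) = q) → M x - M' x = Q x - f (x : ℝ) := by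
    rintro x ⟨q, hq⟩
    have h1 := h x
    have h2 := h' x
    simp only at h2
    rw [h1] at h2
    have e1 : A (x : ℝ) = q * A 1 := by rw [hq]; exact additive_rat A q
    have e2 : A' (x : ℝ) = q * A' 1 := by rw [hq]; exact additive_rat A' q
    rw [e1, e2] at h2
    show M x - M' x = C' x - C x - (A 1 - A' 1) * (x : ℝ) - f (x : ℝ)
    rw [hq] at h2 ⊢
    linarith
  have scale : ∀ x : I, (∃ q : ℚ, (x : ℝ) = q) → ∃ q : ℚ, ((x3 * x : I) : ℝ) = q := by
    rintro x ⟨q, hq⟩
    refine ⟨1 / 3 * q, ?_⟩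
    show (1 / 3 : ℝ) * x = _
    rw [hq]; push_cast; ring
  -- the three term relation
  have three : ∀ x : I, (∃ q : ℚ, (x : ℝ) = q) →
      (Q (x3 * (x3 * x)) - f ((x3 * (x3 * x) : I) : ℝ))
        - (a + a') * (Q (x3 * x) - f ((x3 * x : I) : ℝ)) + a * a' * (Q x - f (x : ℝ)) = 0 := by
    intro x hx
    rw [← main _ (scale _ (scale _ hx)), ← main _ (scale _ hx), ← main _ hx]
    rw [hM, hM, hM', hM']
    show M x3 * (M x3 * M x) - M' x3 * (M' x3 * M' x)
      - (M x3 + M' x3) * (M x3 * M x - M' x3 * M' x) + M x3 * M' x3 * (M x - M' x) = 0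
    ring
  -- sequences
  have hden : ∀ n : ℕ, (0 : ℝ) < 3 * n + 2 := fun n => by positivity
  have hden' : ∀ n : ℕ, (0 : ℝ) < 3 * n + 4 := fun n => by positivity
  let y : ℕ → I := fun n => ⟨(3 * n + 1) / (3 * n + 4), by positivity, by
    rw [div_le_one (hden' n)]; linarith⟩
  let z : ℕ → I := fun n => ⟨(3 * n + 1) / (3 * n + 2), by positivity, by
    rw [div_le_one (hden n)]; linarith⟩
  have hinv : Filter.Tendsto (fun n : ℕ => (3 * (n : ℝ))⁻¹) Filter.atTop (nhds 0) := by
    apply Filter.Tendsto.inv_tendsto_atTop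
    exact Filter.Tendsto.const_mul_atTop (by norm_num) tendsto_natCast_atTop_atTop
  have hlim : ∀ c : ℝ, 0 < c → Filter.Tendsto
      (fun n : ℕ => ((3 * n + 1) / (3 * n + c) : ℝ)) Filter.atTop (nhds 1) := by
    intro c hc
    have h1 : Filter.Tendsto (fun n : ℕ => ((1 + (3 * (n : ℝ))⁻¹) / (1 + c * (3 * (n : ℝ))⁻¹) : ℝ))
        Filter.atTop (nhds ((1 + 0) / (1 + c * 0))) := by
      apply Filter.Tendsto.div
      · exact tendsto_const_nhds.add hinv
      · exact tendsto_const_nhds.add (hinv.const_mul c)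
      · simp
    rw [add_zero, mul_zero, add_zero, div_one] at h1
    refine h1.congr' ?_
    filter_upwards [Filter.eventually_gt_atTop 0] with n hn
    have hn' : (0 : ℝ) < n := by exact_mod_cast hn
    field_simp
  have hy : Filter.Tendsto y Filter.atTop (nhds 1) := by
    rw [tendsto_subtype_rng]
    exact hlim 4 (by norm_num)
  have hz : Filter.Tendsto z Filter.atTop (nhds 1) := by
    rw [tendsto_subtype_rng]
    exact hlim 2 (by norm_num)
  have valy : ∀ n, f ((y n : I) : ℝ) = 0 ∧ f ((x3 * (x3 * y n) : I) : ℝ) = 0 ∧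
      f ((x3 * y n : I) : ℝ) = 1 := by
    intro n
    have h3 := hf (3 * n + 1) (3 * n + 4) (by omega) (by omega)
    obtain ⟨k1, k2, k3, -⟩ := h3
    have hz3 : ((3 * n + 1 : ℕ) : ZMod 3) = ((3 * n + 4 : ℕ) : ZMod 3) := by
      have : (3 * n + 4 : ℕ) = 3 * n + 1 + 3 := by ring
      rw [this]; push_cast
      have h30 : (3 : ZMod 3) = 0 := by decide
      rw [h30]; ring
    have k3 := k3 hz3
    push_cast at k1 k2 k3
    refine ⟨k1, ?_, ?_⟩
    · rw [← k2]
      show f ((1 / 3 : ℝ) * ((1 / 3) * ((3 * n + 1) / (3 * n + 4)))) = _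
      congr 1; ring
    · rw [← k3]
      show f ((1 / 3 : ℝ) * ((3 * n + 1) / (3 * n + 4))) = _
      congr 1; ring
  have valz : ∀ n, f ((z n : I) : ℝ) = 0 ∧ f ((x3 * (x3 * z n) : I) : ℝ) = 0 ∧
      f ((x3 * z n : I) : ℝ) = -1 := by
    intro n
    have h3 := hf (3 * n + 1) (3 * n + 2) (by omega) (by omega)
    obtain ⟨k1, k2, -, k3⟩ := h3
    have hz3 : ((3 * n + 1 : ℕ) : ZMod 3) = -((3 * n + 2 : ℕ) : ZMod 3) := by
      push_cast
      have h30 : (3 : ZMod 3) = 0 := by decide
      have h21 : (2 : ZMod 3) = -1 := by decide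
      rw [h30, h21]; ring
    have k3 := k3 hz3
    push_cast at k1 k2 k3
    refine ⟨k1, ?_, ?_⟩
    · rw [← k2]
      show f ((1 / 3 : ℝ) * ((1 / 3) * ((3 * n + 1) / (3 * n + 2)))) = _
      congr 1; ring
    · rw [← k3]
      show f ((1 / 3 : ℝ) * ((3 * n + 1) / (3 * n + 2))) = _
      congr 1; ring
  have raty : ∀ n, ∃ q : ℚ, ((y n : I) : ℝ) = q := fun n =>
    ⟨(3 * n + 1) / (3 * n + 4), by push_cast; rfl⟩
  have ratz : ∀ n, ∃ q : ℚ, ((z n : I) : ℝ) = q := fun n =>
    ⟨(3 * n + 1) / (3 * n + 2), by push_cast; rfl⟩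
  let R : I → ℝ := fun x => Q (x3 * (x3 * x)) - (a + a') * Q (x3 * x) + a * a' * Q x
  have hR : Continuous R := by
    have h1 : Continuous (fun x : I => x3 * x) := continuous_const.mul continuous_id
    exact ((hQ.comp (h1.comp h1)).sub (continuous_const.mul (hQ.comp h1))).add
      (continuous_const.mul hQ)
  have Ry : ∀ n, R (y n) = -(a + a') := by
    intro n
    have h1 := three (y n) (raty n)
    obtain ⟨k1, k2, k3⟩ := valy n
    rw [k1, k2, k3] at h1
    show Q (x3 * (x3 * y n)) - (a + a') * Q (x3 * y n) + a * a' * Q (y n) = _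
    linarith
  have Rz : ∀ n, R (z n) = a + a' := by
    intro n
    have h1 := three (z n) (ratz n)
    obtain ⟨k1, k2, k3⟩ := valz n
    rw [k1, k2, k3] at h1
    show Q (x3 * (x3 * z n)) - (a + a') * Q (x3 * z n) + a * a' * Q (z n) = _
    linarith
  have l1 : R 1 = -(a + a') := by
    have := (hR.tendsto 1).comp hy
    refine tendsto_nhds_unique this ?_
    refine tendsto_const_nhds.congr (fun n => ?_)
    exact (Ry n).symm
  have l2 : R 1 = a + a' := by
    have := (hR.tendsto 1).comp hz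
    refine tendsto_nhds_unique this ?_
    refine tendsto_const_nhds.congr (fun n => ?_)
    exact (Rz n).symm
  have a0 : a = 0 := by linarith
  have a0' : a' = 0 := by linarith
  -- second relation
  have second : ∀ x : I, (∃ q : ℚ, (x : ℝ) = q) → Q (x3 * x) = f ((x3 * x : I) : ℝ) := by
    intro x hx
    have h1 := main _ (scale _ hx)
    rw [hM, hM'] at h1
    have h2 : M x3 = 0 := a0
    have h3 : M' x3 = 0 := a0'
    rw [h2, h3] at h1
    linarith
  have hS : Continuous (fun x : I => Q (x3 * x)) :=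
    hQ.comp (continuous_const.mul continuous_id)
  have l3 : Q (x3 * 1) = 1 := by
    have := (hS.tendsto 1).comp hy
    refine tendsto_nhds_unique this ?_
    refine tendsto_const_nhds.congr (fun n => ?_)
    show (1 : ℝ) = Q (x3 * y n)
    rw [second _ (raty n), (valy n).2.2]
  have l4 : Q (x3 * 1) = -1 := by
    have := (hS.tendsto 1).comp hz
    refine tendsto_nhds_unique this ?_
    refine tendsto_const_nhds.congr (fun n => ?_)
    show (-1 : ℝ) = Q (x3 * z n)
    rw [second _ (ratz n), (valz n).2.2]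
  rw [l3] at l4
  norm_num at l4

/-- the one-parameter family of polynomial solutions of degree at most three -/
lemma cubic (s : ℝ) (A : ℝ →+ ℝ) (hA : A 1 = (s - 2) * (s - 3) / 6) :
    SolvesE (fun x => A (x : ℝ) + s * (3 - s) / 2 * (x : ℝ) ^ 2 + s * (s - 2) / 3 * (x : ℝ) ^ 3) := by
  intro x y
  have h4 : A ((x : ℝ) * y) + A ((x : ℝ) * (1 - y)) + A ((1 - (x : ℝ)) * y)
      + A ((1 - (x : ℝ)) * (1 - y)) = (s - 2) * (s - 3) / 6 := by
    rw [← map_add, ← map_add, ← map_add, ← hA]
    congr 1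
    ring
  have h2 : ∀ x : ℝ, A x + A (1 - x) = (s - 2) * (s - 3) / 6 := by
    intro x
    rw [← map_add, ← hA]
    congr 1
    ring
  simp only [unitInterval.coe_symm_eq, Set.Icc.coe_mul]
  have hx := h2 x
  have hy := h2 y
  have hx' : A (1 - (x : ℝ)) = (s - 2) * (s - 3) / 6 - A x := by linarith
  have hy' : A (1 - (y : ℝ)) = (s - 2) * (s - 3) / 6 - A y := by linarith
  rw [hx', hy']
  linear_combination h4

theorem result :
    -- (1) a solution with the same symmetric sum as a given one differs from it exactly by an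
    -- element of the linear solution space
    (∀ g g' : I → ℝ, SolvesE g →
      ((SolvesE g' ∧ ∀ x, g' x + g' (σ x) = g x + g (σ x)) ↔ Homog (fun x => g' x - g x))) ∧
    -- (2) the degenerate case is completely reduced to the linear solution space
    (∀ g : I → ℝ, (SolvesE g ∧ ¬ (g 0 = 0 ∧ g 1 = 1)) ↔
      ∃ a b : ℝ, (a + 2 * b) ^ 2 = a + 4 * b ∧ ¬ (b = 0 ∧ a + b = 1) ∧
        ∃ H : I → ℝ, Homog H ∧ ∀ x : I, g x = a * (x : ℝ) + b + H x) ∧
    -- (3) additive functions vanishing at one and all functions of valuative type are in that space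
    (∀ A : ℝ →+ ℝ, A 1 = 0 → Homog (fun x : I => A (x : ℝ))) ∧
    (∀ (Γ : Type) [LinearOrderedCommGroupWithZero Γ] (v : Valuation ℝ Γ) (f : ℝ → ℝ),
      Valuative v f → Homog (fun x : I => f (x : ℝ))) ∧
    -- (4) for every prime p the values of a function of valuative type at the rational points whose
    -- denominator is divisible by p exactly once can be prescribed by any odd function on ZMod p
    (∀ p : ℕ, p.Prime → ∀ s : ZMod p → ℝ, (∀ a, s (-a) = - s a) →
      ∃ (O : ValuationSubring ℝ) (f : ℝ → ℝ), Valuative O.valuation f ∧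
        ∀ n d : ℕ, ¬ p ∣ d → f ((n : ℝ) / d / p) = s ((n : ZMod p) * (d : ZMod p)⁻¹)) ∧
    -- (5) there is a function of valuative type with values in {-1, 0, 1} which turns every solution
    -- into a solution and every tame function into a function that is not tame
    (∃ (O : ValuationSubring ℝ) (f : ℝ → ℝ), Valuative O.valuation f ∧
      (∀ z, f z = -1 ∨ f z = 0 ∨ f z = 1) ∧
      (∀ g : I → ℝ, SolvesE g → SolvesE (fun x => g x + f (x : ℝ))) ∧
      (∀ g : I → ℝ, Tame g → ¬ Tame (fun x => g x + f (x : ℝ)))) ∧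
    -- (6) a one-parameter family of cubic solutions, perturbed by additive functions
    (∀ (s : ℝ) (A : ℝ →+ ℝ), A 1 = (s - 2) * (s - 3) / 6 →
      SolvesE (fun x => A (x : ℝ) + s * (3 - s) / 2 * (x : ℝ) ^ 2
        + s * (s - 2) / 3 * (x : ℝ) ^ 3)) := by
  refine ⟨solvesE_translate, degenerate, additive_homog, ?_, ?_, ?_, cubic⟩
  · intro Γ _ v f hf
    exact hf.homog
  · intro p hp s hs
    obtain ⟨O, f, h1, h2, -⟩ := interpolation p hp s hs
    exact ⟨O, f, h1, h2⟩
  · obtain ⟨O, f, h1, h2, h3, h4, h5⟩ := interpolation 3 Nat.prime_three s3 s3_odd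
    refine ⟨O, f, h1, ?_, ?_, ?_⟩
    · intro z
      rcases h3 z with h | ⟨a, h⟩
      · exact Or.inr (Or.inl h)
      · rw [h]
        simp only [s3]
        split_ifs
        · exact Or.inr (Or.inr rfl)
        · exact Or.inl rfl
        · exact Or.inr (Or.inl rfl)
    · intro g hg
      have h5 : Homog (fun x : I => (g x + f (x : ℝ)) - g x) := by
        have := h1.homog
        simpa using this
      exact ((solvesE_translate g (fun x => g x + f (x : ℝ)) hg).2 h5).1
    · intro g hg
      refine not_tame f ?_ g hg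
      intro n d hn hd
      have : Fact (Nat.Prime 3) := ⟨Nat.prime_three⟩
      have hdz : (d : ZMod 3) ≠ 0 := fun h => hd ((ZMod.natCast_eq_zero_iff _ _).1 h)
      refine ⟨h4 n d hd, ?_, ?_, ?_⟩
      · have := h5 n d hn hd
        have e : ((3 : ℕ) : ℝ) ^ 2 = 9 := by norm_num
        rwa [e] at this
      · intro h
        have := h2 n d hd
        rw [h, mul_inv_cancel₀ hdz] at this
        have e : ((3 : ℕ) : ℝ) = 3 := by norm_num
        rw [e] at this
        rw [this]
        simp [s3]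
      · intro h
        have := h2 n d hd
        rw [h, neg_mul, mul_inv_cancel₀ hdz] at this
        have e : ((3 : ℕ) : ℝ) = 3 := by norm_num
        rw [e] at this
        rw [this, s3_odd]
        simp [s3]

end Pool.Agent.Results.MP_6d4b14_an.ValuativeSolutions
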